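import Pool.Agent.Zk86.SU4.Extra

/-!
# MP_ca7eb7_al, Q1: every element of `SU(n)`, `n ≥ 3`, is a product of four involutions of `SU(n)`

Moreover four is optimal for every `n ≥ 3` except `n = 4`, and for `n = 4` three is optimal; so
the involution length of `SU(n)` is determined for all `n ≥ 3`.

Only `n = 2 m`, `m` odd, is new (for the other `n` the partial products of the starting file
`FiveInvolutions` suffice). Diagonalise, with the eigenvalues `a` in a suitable order, and factor the
diagonal matrix as `X Y` by partial products, except in one block of size two with the entries `a`,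
`b`, after `k` entries with the product `p`. There take a product of two unitary matrices with the
eigenvalues `p⁻¹, 1` and `ε a b p, ε`, `ε = ± 1` (`k` even), or `p⁻¹, η` and `η a b p, 1`, `η = ± 1`
(`k` odd). Then `X` and `Y` have spectra closed under conjugation with an eigenvalue `± 1` each, so
they are products of two involutions of determinant one. The block exists if
`Im a Im b Im (a p) Im (b p) ≤ 0` (`k` even), or if `Im a Im b ≤ 0` (`k` odd). If all eigenvalues are on
one side of the real line, then the products of `m` consecutive eigenvalues change the side, as the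
product over the complement is the inverse, and this gives the first case with `k = m - 1`.
-/

set_option autoImplicit false

namespace Pool.Agent.Results.MP_ca7eb7_al.FourInvolutions

open Pool.Agent.Zk86.SU4 Pool.Agent.H16.SUn

/-- `A` is a product of `k` involutions of `SU(n)` (the identity counts as an involution) -/
def ProdInv (n k : ℕ) (A : Matrix (Fin n) (Fin n) ℂ) : Prop :=
  ∃ g : Fin k → Matrix (Fin n) (Fin n) ℂ,
    (∀ i, g i ∈ Matrix.specialUnitaryGroup (Fin n) ℂ ∧ g i * g i = 1) ∧ A = (List.ofFn g).prod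

theorem result :
    -- Q1: four involutions suffice
    (∀ n : ℕ, 3 ≤ n → ∀ A ∈ Matrix.specialUnitaryGroup (Fin n) ℂ, ProdInv n 4 A) ∧
    -- three do not suffice, unless `n = 4`
    (∀ n : ℕ, 3 ≤ n → n ≠ 4 → ∃ A ∈ Matrix.specialUnitaryGroup (Fin n) ℂ, ¬ ProdInv n 3 A) ∧
    -- in `SU(4)` three suffice, two do not
    (∀ A ∈ Matrix.specialUnitaryGroup (Fin 4) ℂ, ProdInv 4 3 A) ∧
    (∃ A ∈ Matrix.specialUnitaryGroup (Fin 4) ℂ, ¬ ProdInv 4 2 A) := by
  refine ⟨?_, ?_, ?_, ?_⟩
  · intro n hn A hA
    obtain ⟨I1, I2, I3, I4, h1, h2, h3, h4, h⟩ := four hn hA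
    refine ⟨![I1, I2, I3, I4], ?_, ?_⟩
    · intro i
      fin_cases i
      · exact h1
      · exact h2
      · exact h3
      · exact h4
    · rw [h]
      simp [List.ofFn_succ, mul_assoc]
  · intro n hn h4
    obtain ⟨ζ, z1, z2, z3⟩ := exists_root hn h4
    refine ⟨ζ • 1, scalar_mem z1 z2, ?_⟩
    rintro ⟨g, hg, h⟩
    apply z3
    refine scalar_three (n := n) (by omega) ?_ (hg 0).2 (hg 1).2 (hg 2).2 ?_
    · intro h0
      rw [h0] at z1
      simp at z1
    · rw [h]
      simp [List.ofFn_succ, mul_assoc]
  · intro A hA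
    obtain ⟨I1, I2, I3, h1, h2, h3, h⟩ := three_of_four hA
    refine ⟨![I1, I2, I3], ?_, ?_⟩
    · intro i
      fin_cases i
      · exact h1
      · exact h2
      · exact h3
    · rw [h]
      simp [List.ofFn_succ, mul_assoc]
  · refine ⟨Complex.I • 1, scalar_mem (by simp) (by
      rw [show (4 : ℕ) = 2 * 2 from rfl, pow_mul, Complex.I_sq]; norm_num), ?_⟩
    rintro ⟨g, hg, h⟩
    have h' : Complex.I • (1 : Matrix (Fin 4) (Fin 4) ℂ) = g 0 * g 1 := by
      rw [h]
      simp [List.ofFn_succ]
    have h1 : g 0 = Complex.I • g 1 := by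
      calc g 0 = g 0 * (g 1 * g 1) := by rw [(hg 1).2, mul_one]
        _ = (g 0 * g 1) * g 1 := by rw [mul_assoc]
        _ = Complex.I • g 1 := by rw [← h', smul_mul_assoc, one_mul]
    have h2 : (1 : Matrix (Fin 4) (Fin 4) ℂ) = (-1 : ℂ) • 1 := by
      calc (1 : Matrix (Fin 4) (Fin 4) ℂ) = g 0 * g 0 := (hg 0).2.symm
        _ = (-1 : ℂ) • 1 := by
            rw [h1, smul_mul_smul_comm, (hg 1).2, Complex.I_mul_I]
    have h3 := congrFun (congrFun h2 0) 0
    simp only [Matrix.smul_apply, Matrix.one_apply_eq, smul_eq_mul, mul_one] at h3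
    norm_num at h3

end Pool.Agent.Results.MP_ca7eb7_al.FourInvolutions
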